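import Pool.Agent.H83.KM2.Stm
import Pool.Agent.H12.KM.RP4

set_option autoImplicit false
open Finset Pool.Agent.H83.KM Pool.Agent.H83.KM2

namespace Pool.Agent.H89.KM2

theorem cub_lin (f g : Fin 3 → Fin 3 → Fin 3 → ℝ) (c : ℝ) (w : Fin 3 → ℝ) :
    cub (fun x y z => f x y z + c * g x y z) w = cub f w + c * cub g w := by
  simp only [cub, Fin.sum_univ_three]
  ring

theorem cub_sum {α : Type} (T : Finset α) (a : α → ℝ)
    (Φ : α → Fin 3 → Fin 3 → Fin 3 → ℝ) (w : Fin 3 → ℝ) :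
    cub (fun x y z => ∑ q ∈ T, a q * Φ q x y z) w = ∑ q ∈ T, a q * cub (Φ q) w := by
  classical
  induction T using Finset.induction_on with
  | empty => simp [cub]
  | insert q T hq ih =>
    have h1 : (fun x y z => ∑ q' ∈ insert q T, a q' * Φ q' x y z) =
        fun x y z => (∑ q' ∈ T, a q' * Φ q' x y z) + a q * Φ q x y z := by
      funext x y z
      rw [Finset.sum_insert hq, add_comm]
    rw [h1, cub_lin, ih, Finset.sum_insert hq, add_comm]

theorem t_RP5 (hO : S_OM) (hS : S_SPN) : S_RP5 := by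
  classical
  intro n d hd hn p hp c hc
  obtain ⟨T, U, a, hU, hcomb⟩ := Pool.Agent.H12.KM.comb hO hS (m := 3) hd (by omega) p hp c hc
  have hQ : ∀ q : Fin n × Fin n, ∃ Φ : Fin 3 → Fin 3 → Fin 3 → ℝ, q ∈ T → ∀ i j, i ≠ j →
      om p (U q) i j = W p i j * cub Φ (qv (p i) (p j)) := by
    intro q
    by_cases hq : q ∈ T
    · obtain ⟨z, z', z'', h1, h2, h3, hz⟩ := Finset.card_eq_three.mp (hU q hq)
      refine ⟨fun x y t => (![(p z).1, (p z).2, 1] : Fin 3 → ℝ) x *
        (![(p z').1, (p z').2, 1] : Fin 3 → ℝ) y * (![(p z'').1, (p z'').2, 1] : Fin 3 → ℝ) t,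
        fun _ i j hij => ?_⟩
      rw [Pool.Agent.H12.KM.om_eq hp _ i j hij, hz]
      congr 1
      rw [Finset.prod_insert (by simp [h1, h2]), Finset.prod_pair h3,
        Pool.Agent.H12.KM.dl_qv, Pool.Agent.H12.KM.dl_qv, Pool.Agent.H12.KM.dl_qv]
      simp only [cub, Fin.sum_univ_three]
      ring
    · exact ⟨fun _ _ _ => 0, fun h => absurd h hq⟩
  choose Φ hΦ using hQ
  refine ⟨fun x y z => ∑ q ∈ T, a q * Φ q x y z, fun i j hij => ?_⟩
  rw [hcomb i j, cub_sum, Finset.mul_sum]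
  refine Finset.sum_congr rfl fun q hq => ?_
  rw [hΦ q hq i j hij]
  ring

end Pool.Agent.H89.KM2
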